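import Pool.Agent.H48Cut.Three

/-!
Components, paths as walks, and the number of components.
-/

set_option autoImplicit false

namespace Pool.Agent.H48Cut

open SimpleGraph Pool.Agent.H58Ed

variable {V : Type*} {G : SimpleGraph V}

/-- a sequence path as a path of Mathlib -/
theorem SPx.walk {A : Set V} {c d : V} (h : SPx G A c d) (hcd : c ≠ d) (hc : c ∉ A)
    (hd : d ∉ A) : ∃ p : G.Walk c d, p.IsPath ∧ ∀ x, x ∈ p.support ↔ x = c ∨ x = d ∨ x ∈ A := by
  obtain ⟨k, g, h⟩ := h
  have key : ∀ n, n ≤ k + 1 → ∃ p : G.Walk (g 0) (g n), p.support = (List.range (n + 1)).map g := by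
    intro n
    induction n with
    | zero => intro _; exact ⟨Walk.nil, by simp⟩
    | succ n ih =>
      intro hn
      obtain ⟨p, hp⟩ := ih (by omega)
      refine ⟨p.concat (h.adj n (by omega)), ?_⟩
      rw [Walk.support_concat, hp, List.range_succ (n := n + 1), List.map_append]
      simp
  obtain ⟨p, hp⟩ := key (k + 1) le_rfl
  have hst := h.start
  have hfi := h.fin
  have hinj : ∀ i j, i ≤ k + 1 → j ≤ k + 1 → g i = g j → i = j := by
    have cls : ∀ i, i ≤ k + 1 → (i = 0 ∧ g i = c) ∨ (i = k + 1 ∧ g i = d) ∨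
        (1 ≤ i ∧ i ≤ k ∧ g i ∈ A) := by
      intro i hi
      rcases Nat.eq_zero_or_pos i with h0 | h0
      · left; subst h0; exact ⟨rfl, hst⟩
      · rcases Nat.lt_or_ge i (k + 1) with h4 | h4
        · right; right; exact ⟨h0, by omega, h.mem i h0 (by omega)⟩
        · right; left
          have : i = k + 1 := by omega
          subst this; exact ⟨rfl, hfi⟩
    intro i j hi hj hij
    rcases cls i hi with ⟨a1, a2⟩ | ⟨a1, a2⟩ | ⟨a1, a1', a2⟩ <;>
      rcases cls j hj with ⟨b1, b2⟩ | ⟨b1, b2⟩ | ⟨b1, b1', b2⟩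
    · omega
    · exact absurd (a2.symm.trans (hij.trans b2)) hcd
    · rw [← hij, a2] at b2; exact absurd b2 hc
    · exact absurd (b2.symm.trans (hij.symm.trans a2)) hcd
    · omega
    · rw [← hij, a2] at b2; exact absurd b2 hd
    · rw [hij, b2] at a2; exact absurd a2 hc
    · rw [hij, b2] at a2; exact absurd a2 hd
    · exact h.inj i j a1 a1' b1 b1' hij
  have hnodup : p.support.Nodup := by
    rw [hp]
    apply List.Nodup.map_on _ List.nodup_range
    intro i hi j hj hij
    rw [List.mem_range] at hi hj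
    exact hinj i j (by omega) (by omega) hij
  have hmem : ∀ x, x ∈ p.support ↔ x = c ∨ x = d ∨ x ∈ A := by
    intro x
    rw [hp, List.mem_map]
    constructor
    · rintro ⟨i, hi, rfl⟩
      rw [List.mem_range] at hi
      rcases Nat.eq_zero_or_pos i with h0 | h0
      · left; subst h0; exact hst
      · rcases Nat.lt_or_ge i (k + 1) with h4 | h4
        · right; right; exact h.mem i h0 (by omega)
        · right; left
          have : i = k + 1 := by omega
          subst this; exact hfi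
    · rintro (h0 | h0 | h0)
      · exact ⟨0, by simp, by rw [hst, h0]⟩
      · exact ⟨k + 1, by simp, by rw [hfi, h0]⟩
      · obtain ⟨i, h1, h2, h3⟩ := h.surj x h0
        exact ⟨i, by rw [List.mem_range]; omega, h3⟩
  refine ⟨p.copy hst hfi, ?_, ?_⟩
  · rw [Walk.isPath_def, Walk.support_copy]
    exact hnodup
  · intro x
    rw [Walk.support_copy]
    exact hmem x

/-- the vertex set of a component of `G - T` -/
def part (T : Finset V) (K : (G.induce ((T : Set V)ᶜ)).ConnectedComponent) : Set V :=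
  Subtype.val '' K.supp

theorem part_notT {T : Finset V} (K : (G.induce ((T : Set V)ᶜ)).ConnectedComponent) {x : V}
    (hx : x ∈ part T K) : x ∉ T := by
  obtain ⟨y, _, rfl⟩ := hx
  exact fun h => y.2 (by exact_mod_cast h)

theorem part_disj {T : Finset V} {K L : (G.induce ((T : Set V)ᶜ)).ConnectedComponent} {x : V}
    (hx : x ∈ part T K) (hx' : x ∈ part T L) : K = L := by
  obtain ⟨y, hy, rfl⟩ := hx
  obtain ⟨z, hz, hyz⟩ := hx'
  have : z = y := Subtype.ext hyz
  subst this
  exact (ConnectedComponent.mem_supp_iff _ _).1 hy ▸ (ConnectedComponent.mem_supp_iff _ _).1 hz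

theorem part_adj {T : Finset V} {K : (G.induce ((T : Set V)ᶜ)).ConnectedComponent} {x y : V}
    (hx : x ∈ part T K) (hxy : G.Adj x y) (hy : y ∉ T) : y ∈ part T K := by
  obtain ⟨x', hx', rfl⟩ := hx
  refine ⟨⟨y, by simpa using hy⟩, ?_, rfl⟩
  rw [ConnectedComponent.mem_supp_iff] at hx' ⊢
  rw [← hx']
  apply ConnectedComponent.sound
  have hadj : (G.induce ((T : Set V)ᶜ)).Adj ⟨y, by simpa using hy⟩ x' := hxy.symm
  exact hadj.reachable

theorem part_nonempty {T : Finset V} (K : (G.induce ((T : Set V)ᶜ)).ConnectedComponent) :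
    (part T K).Nonempty := K.nonempty_supp.image _

theorem sep_part {T : Finset V} {K L : (G.induce ((T : Set V)ᶜ)).ConnectedComponent}
    (hKL : K ≠ L) : Sep G T (part T K) {y | y ∉ T ∧ y ∉ part T K} where
  cov x := by
    by_cases h1 : x ∈ T
    · exact Or.inl h1
    · by_cases h2 : x ∈ part T K
      · exact Or.inr (Or.inl h2)
      · exact Or.inr (Or.inr ⟨h1, h2⟩)
  notA x hx hx' := part_notT K hx' hx
  notB x hx hx' := hx'.1 hx
  disj x hx hx' := hx'.2 hx
  neA := part_nonempty K
  neB := by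
    obtain ⟨y, hy⟩ := part_nonempty L
    exact ⟨y, part_notT L hy, fun h => hKL (part_disj h hy)⟩
  noedge x hx y hy hxy := hy.2 (part_adj hx hxy hy.1)

theorem exists_other {T : Finset V} (hT : ¬ (G.induce ((T : Set V)ᶜ)).Preconnected)
    (K : (G.induce ((T : Set V)ᶜ)).ConnectedComponent) :
    ∃ L : (G.induce ((T : Set V)ᶜ)).ConnectedComponent, K ≠ L := by
  by_contra hcon
  push Not at hcon
  apply hT
  intro x y
  have h1 := hcon ((G.induce ((T : Set V)ᶜ)).connectedComponentMk x)
  have h2 := hcon ((G.induce ((T : Set V)ᶜ)).connectedComponentMk y)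
  exact ConnectedComponent.exact (h1.symm.trans h2)

theorem entry {m : ℕ} {f : ℕ → V} (hm : 0 < m) (hper : ∀ i, f (i + m) = f i) (P : V → Prop)
    (h1 : ∃ i, P (f i)) (h2 : ∃ j, ¬ P (f j)) : ∃ i, ¬ P (f i) ∧ P (f (i + 1)) := by
  by_contra hcon
  push Not at hcon
  obtain ⟨i, hi⟩ := h1
  obtain ⟨j, hj⟩ := h2
  have h3 : ∀ k, ¬ P (f (j + k)) := by
    intro k
    induction k with
    | zero => exact hj
    | succ k ih => exact hcon (j + k) ih
  have h4 : ∀ n, f (i + n * m) = f i := by
    intro n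
    induction n with
    | zero => simp
    | succ n ih => rw [show i + (n + 1) * m = i + n * m + m by ring, hper, ih]
  have h5 := h3 (i + j * m - j)
  have hjm : j ≤ j * m := Nat.le_mul_of_pos_right _ hm
  rw [show j + (i + j * m - j) = i + j * m by omega, h4] at h5
  exact h5 hi

/-- the number of components of `G - T` is at most `|T| - 2` -/
theorem comp_count [Fintype V] [DecidableEq V] (h5 : 5 ≤ Fintype.card V)
    (h2 : ∀ v w : V, v ≠ w → ∃ (m : ℕ) (f : ℕ → V), Cyc G ({v, w}ᶜ : Set V) m f)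
    {T : Finset V} (hT : ¬ (G.induce ((T : Set V)ᶜ)).Preconnected) :
    Nat.card (G.induce ((T : Set V)ᶜ)).ConnectedComponent + 2 ≤ T.card := by
  classical
  obtain ⟨K0⟩ : Nonempty (G.induce ((T : Set V)ᶜ)).ConnectedComponent := by
    by_contra hcon
    apply hT
    intro x y
    exact absurd ⟨(G.induce ((T : Set V)ᶜ)).connectedComponentMk x⟩ hcon
  obtain ⟨L0, hKL0⟩ := exists_other hT K0
  have h4 := four_le h5 h2 (sep_part hKL0)
  obtain ⟨v, hv⟩ : T.Nonempty := Finset.card_pos.1 (by omega)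
  obtain ⟨w, hw⟩ : (T.erase v).Nonempty := Finset.card_pos.1 (by
    rw [Finset.card_erase_of_mem hv]; omega)
  rw [Finset.mem_erase] at hw
  obtain ⟨m, f, hf⟩ := h2 v w hw.1.symm
  have hm : 0 < m := by have := hf.three; omega
  have hS : ∀ x, x ∉ T → x ∈ ({v, w}ᶜ : Set V) := by
    intro x hx
    have h6 : x ≠ v := fun e => hx (e ▸ hv)
    have h7 : x ≠ w := fun e => hx (e ▸ hw.2)
    simp [h6, h7]
  have hex : ∀ K : (G.induce ((T : Set V)ᶜ)).ConnectedComponent,
      ∃ i, f i ∈ (T.erase v).erase w ∧ f (i + 1) ∈ part T K := by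
    intro K
    obtain ⟨L, hKL⟩ := exists_other hT K
    obtain ⟨x, hx⟩ := part_nonempty K
    obtain ⟨y, hy⟩ := part_nonempty L
    obtain ⟨i, _, hi⟩ := hf.surj x (hS x (part_notT K hx))
    obtain ⟨j, _, hj⟩ := hf.surj y (hS y (part_notT L hy))
    obtain ⟨l, hl1, hl2⟩ := entry hm hf.per (fun u => u ∈ part T K) ⟨i, hi.symm ▸ hx⟩
      ⟨j, fun h => hKL (part_disj h (hj.symm ▸ hy))⟩
    refine ⟨l, ?_, hl2⟩
    have hlT : f l ∈ T := by
      by_contra hlT
      exact hl1 (part_adj hl2 (hf.adj l).symm hlT)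
    have hl3 : f l ≠ v ∧ f l ≠ w := by simpa [not_or] using hf.mem l
    rw [Finset.mem_erase, Finset.mem_erase]
    exact ⟨hl3.2, hl3.1, hlT⟩
  choose τ hτ1 hτ2 using hex
  have hinj : Function.Injective (fun K => (⟨f (τ K), hτ1 K⟩ : ↥((T.erase v).erase w))) := by
    intro K L hKL
    have h6 : f (τ K) = f (τ L) := congrArg Subtype.val hKL
    have h7 := (hf.eq_iff _ _).1 h6
    have h8 : f (τ K + 1) = f (τ L + 1) := (hf.eq_iff _ _).2 (Nat.ModEq.add_right 1 h7)
    exact part_disj (hτ2 K) (h8 ▸ hτ2 L)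
  have hc := Nat.card_le_card_of_injective _ hinj
  rw [Nat.card_eq_fintype_card (α := ↥((T.erase v).erase w)), Fintype.card_coe,
    Finset.card_erase_of_mem (Finset.mem_erase.2 ⟨hw.1, hw.2⟩), Finset.card_erase_of_mem hv] at hc
  omega

end Pool.Agent.H48Cut
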