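import Pool.Agent.H48Cut.Split

/-!
Small cuts of Grünbaum's graphs.
-/

set_option autoImplicit false

namespace Pool.Agent.H48Cut

open SimpleGraph Pool.Agent.H58Ed

variable {V : Type*}

/-- `T` separates `G` into the two parts `A` and `B`: every vertex lies in exactly one of the three
sets, `A` and `B` are not empty and there is no edge between `A` and `B`. -/
structure Sep (G : SimpleGraph V) (T : Finset V) (A B : Set V) : Prop where
  cov : ∀ x, x ∈ T ∨ x ∈ A ∨ x ∈ B
  notA : ∀ x ∈ T, x ∉ A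
  notB : ∀ x ∈ T, x ∉ B
  disj : ∀ x ∈ A, x ∉ B
  neA : A.Nonempty
  neB : B.Nonempty
  noedge : ∀ x ∈ A, ∀ y ∈ B, ¬ G.Adj x y

theorem Sep.symm {G : SimpleGraph V} {T : Finset V} {A B : Set V} (h : Sep G T A B) :
    Sep G T B A where
  cov x := by rcases h.cov x with h1 | h1 | h1 <;> simp [h1]
  notA := h.notB
  notB := h.notA
  disj x hx hx' := h.disj x hx' hx
  neA := h.neB
  neB := h.neA
  noedge x hx y hy hxy := h.noedge y hy x hx hxy.symm

variable {G : SimpleGraph V} [Fintype V] [DecidableEq V]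

theorem core (h2 : ∀ v w : V, v ≠ w → ∃ (m : ℕ) (f : ℕ → V), Cyc G ({v, w}ᶜ : Set V) m f)
    {T : Finset V} {A B : Set V} (h : Sep G T A B) {v w a : V} (hvw : v ≠ w)
    (hT : ∀ x ∈ T, x = v ∨ x = w ∨ x = a)
    (hA : ∃ u ∈ A, u ≠ v ∧ u ≠ w ∧ u ≠ a) (hB : ∃ u ∈ B, u ≠ v ∧ u ≠ w ∧ u ≠ a) : False := by
  obtain ⟨m, f, hf⟩ := h2 v w hvw
  refine no_one_cut (A := A) (B := B) (a := a) hf ?_ ?_ ?_ h.disj h.noedge
  · intro x hx
    have hx' : x ≠ v ∧ x ≠ w := by simpa [not_or] using hx
    rcases h.cov x with h1 | h1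
    · rcases hT x h1 with h3 | h3 | h3
      · exact absurd h3 hx'.1
      · exact absurd h3 hx'.2
      · exact Or.inl h3
    · exact Or.inr h1
  · obtain ⟨u, hu, h3, h4, h5⟩ := hA
    exact ⟨u, hu, by simp [h3, h4], h5⟩
  · obtain ⟨u, hu, h3, h4, h5⟩ := hB
    exact ⟨u, hu, by simp [h3, h4], h5⟩

theorem grow (h5 : 5 ≤ Fintype.card V) {T : Finset V} {A B : Set V} (h : Sep G T A B)
    (hT : T.card ≤ 1) : ∃ (T' : Finset V) (A' B' : Set V), Sep G T' A' B' ∧
      T'.card = T.card + 1 := by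
  -- the move from the first side
  have move : ∀ {A B : Set V}, Sep G T A B → (∃ x ∈ A, ∃ y ∈ A, x ≠ y) →
      ∃ (T' : Finset V) (A' B' : Set V), Sep G T' A' B' ∧ T'.card = T.card + 1 := by
    intro A B h hxy
    obtain ⟨x, hx, y, hy, hxy⟩ := hxy
    refine ⟨insert x T, A \ {x}, B, ?_, ?_⟩
    · refine ⟨?_, ?_, ?_, ?_, ⟨y, hy, fun e => hxy e.symm⟩, h.neB, ?_⟩
      · intro u
        by_cases hu : u = x
        · left; simp [hu]
        · rcases h.cov u with h1 | h1 | h1
          · left; simp [h1]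
          · right; left; exact ⟨h1, hu⟩
          · right; right; exact h1
      · intro u hu hu'
        rw [Finset.mem_insert] at hu
        rcases hu with hu | hu
        · exact hu'.2 hu
        · exact h.notA u hu hu'.1
      · intro u hu hu'
        rw [Finset.mem_insert] at hu
        rcases hu with hu | hu
        · subst hu; exact h.disj u hx hu'
        · exact h.notB u hu hu'
      · intro u hu; exact h.disj u hu.1
      · intro u hu v hv; exact h.noedge u hu.1 v hv
    · rw [Finset.card_insert_of_notMem]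
      intro hx'
      exact h.notA x hx' hx
  by_cases hA : ∃ x ∈ A, ∃ y ∈ A, x ≠ y
  · exact move h hA
  · by_cases hB : ∃ x ∈ B, ∃ y ∈ B, x ≠ y
    · exact move h.symm hB
    · exfalso
      obtain ⟨x, hx⟩ := h.neA
      obtain ⟨y, hy⟩ := h.neB
      have hsub : (Finset.univ : Finset V) ⊆ insert x (insert y T) := by
        intro u _
        rw [Finset.mem_insert, Finset.mem_insert]
        rcases h.cov u with h1 | h1 | h1
        · exact Or.inr (Or.inr h1)
        · left
          by_contra hne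
          exact hA ⟨u, h1, x, hx, hne⟩
        · right; left
          by_contra hne
          exact hB ⟨u, h1, y, hy, hne⟩
      have hc := Finset.card_le_card hsub
      rw [Finset.card_univ] at hc
      have h6 := Finset.card_insert_le x (insert y T)
      have h7 := Finset.card_insert_le y T
      omega

/-- a Grünbaum graph is 4-connected -/
theorem four_le (h5 : 5 ≤ Fintype.card V)
    (h2 : ∀ v w : V, v ≠ w → ∃ (m : ℕ) (f : ℕ → V), Cyc G ({v, w}ᶜ : Set V) m f)
    {T : Finset V} {A B : Set V} (h : Sep G T A B) : 4 ≤ T.card := by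
  have t3 : ∀ {T : Finset V} {A B : Set V}, Sep G T A B → T.card = 3 → False := by
    intro T A B h hT
    obtain ⟨v, w, a, hvw, hva, hwa, hT'⟩ := Finset.card_eq_three.1 hT
    have hmem : ∀ u, u ∉ T → u ≠ v ∧ u ≠ w ∧ u ≠ a := by
      intro u hu
      rw [hT'] at hu
      simpa [not_or] using hu
    refine core h2 h (v := v) (w := w) (a := a) hvw ?_ ?_ ?_
    · intro x hx
      rw [hT'] at hx
      simpa using hx
    · obtain ⟨u, hu⟩ := h.neA
      exact ⟨u, hu, hmem u (fun hu' => h.notA u hu' hu)⟩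
    · obtain ⟨u, hu⟩ := h.neB
      exact ⟨u, hu, hmem u (fun hu' => h.notB u hu' hu)⟩
  have t2 : ∀ {T : Finset V} {A B : Set V}, Sep G T A B → T.card = 2 → False := by
    intro T A B h hT
    obtain ⟨v, w, hvw, hT'⟩ := Finset.card_eq_two.1 hT
    have hmem : ∀ u, u ∉ T → u ≠ v ∧ u ≠ w ∧ u ≠ v := by
      intro u hu
      rw [hT'] at hu
      have : u ≠ v ∧ u ≠ w := by simpa [not_or] using hu
      exact ⟨this.1, this.2, this.1⟩
    refine core h2 h (v := v) (w := w) (a := v) hvw ?_ ?_ ?_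
    · intro x hx
      rw [hT'] at hx
      have : x = v ∨ x = w := by simpa using hx
      rcases this with h1 | h1
      · exact Or.inl h1
      · exact Or.inr (Or.inl h1)
    · obtain ⟨u, hu⟩ := h.neA
      exact ⟨u, hu, hmem u (fun hu' => h.notA u hu' hu)⟩
    · obtain ⟨u, hu⟩ := h.neB
      exact ⟨u, hu, hmem u (fun hu' => h.notB u hu' hu)⟩
  have t1 : ∀ {T : Finset V} {A B : Set V}, Sep G T A B → T.card = 1 → False := by
    intro T A B h hT
    obtain ⟨T', A', B', h', hT'⟩ := grow h5 h (by omega)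
    exact t2 h' (by omega)
  by_contra hlt
  have : T.card = 0 ∨ T.card = 1 ∨ T.card = 2 ∨ T.card = 3 := by omega
  rcases this with h1 | h1 | h1 | h1
  · obtain ⟨T', A', B', h', hT'⟩ := grow h5 h (by omega)
    exact t1 h' (by omega)
  · exact t1 h h1
  · exact t2 h h1
  · exact t3 h h1

/-- remaining two elements of a 4-set -/
theorem rest {T : Finset V} (hT : T.card = 4) {a c : V} (ha : a ∈ T) (hc : c ∈ T) (hac : a ≠ c) :
    ∃ v w, v ≠ w ∧ v ∈ T ∧ w ∈ T ∧ v ≠ a ∧ v ≠ c ∧ w ≠ a ∧ w ≠ c ∧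
      ∀ x, x ∈ T ↔ x = a ∨ x = c ∨ x = v ∨ x = w := by
  have h1 : ((T.erase a).erase c).card = 2 := by
    rw [Finset.card_erase_of_mem (Finset.mem_erase.2 ⟨hac.symm, hc⟩),
      Finset.card_erase_of_mem ha, hT]
  obtain ⟨v, w, hvw, h2⟩ := Finset.card_eq_two.1 h1
  have hm : ∀ x, x ∈ (T.erase a).erase c ↔ x = v ∨ x = w := by
    intro x; rw [h2]; simp
  have hm' : ∀ x, (x ≠ c ∧ x ≠ a ∧ x ∈ T) ↔ x = v ∨ x = w := by
    intro x; rw [← hm x, Finset.mem_erase, Finset.mem_erase]
  have hv := (hm' v).2 (Or.inl rfl)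
  have hw := (hm' w).2 (Or.inr rfl)
  refine ⟨v, w, hvw, hv.2.2, hw.2.2, hv.2.1, hv.1, hw.2.1, hw.1, ?_⟩
  intro x
  constructor
  · intro hx
    by_cases h3 : x = a
    · exact Or.inl h3
    · by_cases h4 : x = c
      · exact Or.inr (Or.inl h4)
      · exact Or.inr (Or.inr ((hm' x).1 ⟨h4, h3, hx⟩))
  · rintro (h3 | h3 | h3 | h3)
    · rw [h3]; exact ha
    · rw [h3]; exact hc
    · rw [h3]; exact hv.2.2
    · rw [h3]; exact hw.2.2

/-- both sides of a 4-cut are spanned by paths between any two cut vertices -/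
theorem paths4 (h2 : ∀ v w : V, v ≠ w → ∃ (m : ℕ) (f : ℕ → V), Cyc G ({v, w}ᶜ : Set V) m f)
    {T : Finset V} {A B : Set V} (h : Sep G T A B) (hT : T.card = 4) {a c : V} (ha : a ∈ T)
    (hc : c ∈ T) (hac : a ≠ c) : SPx G A a c ∧ SPx G B a c := by
  obtain ⟨v, w, hvw, hv, hw, hva, hvc, hwa, hwc, hmem⟩ := rest hT ha hc hac
  obtain ⟨m, f, hf⟩ := h2 v w hvw
  refine split hf ?_ ?_ hac ?_ ?_ ?_ h.neA h.neB h.disj (h.notA a ha) (h.notB a ha)
    (h.notA c hc) (h.notB c hc) h.noedge
  · simp [hva.symm, hwa.symm]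
  · simp [hvc.symm, hwc.symm]
  · intro x hx
    have hx' : x ≠ v ∧ x ≠ w := by simpa [not_or] using hx
    rcases h.cov x with h1 | h1
    · rcases (hmem x).1 h1 with h3 | h3 | h3 | h3
      · exact Or.inl h3
      · exact Or.inr (Or.inl h3)
      · exact absurd h3 hx'.1
      · exact absurd h3 hx'.2
    · exact Or.inr (Or.inr h1)
  · intro x hx
    have h3 : x ≠ v := fun e => h.notA v hv (e ▸ hx)
    have h4 : x ≠ w := fun e => h.notA w hw (e ▸ hx)
    simp [h3, h4]
  · intro x hx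
    have h3 : x ≠ v := fun e => h.notB v hv (e ▸ hx)
    have h4 : x ≠ w := fun e => h.notB w hw (e ▸ hx)
    simp [h3, h4]

/-- 4-cuts are independent -/
theorem indep4 (h1 : ∀ v : V, ¬ ∃ a : ↥(({v}ᶜ : Set V)),
      ∃ p : (G.induce ({v}ᶜ : Set V)).Walk a a, p.IsHamiltonianCycle)
    (h2 : ∀ v w : V, v ≠ w → ∃ (m : ℕ) (f : ℕ → V), Cyc G ({v, w}ᶜ : Set V) m f)
    {T : Finset V} {A B : Set V} (h : Sep G T A B) (hT : T.card = 4) {a b : V} (ha : a ∈ T)
    (hb : b ∈ T) (hab : G.Adj a b) : False := by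
  obtain ⟨c, d, hcd, hc, hd, hca, hcb, hda, hdb, hmem⟩ := rest hT ha hb hab.ne
  have p1 := (paths4 h2 h hT ha hc hca.symm).1
  have p2 := (paths4 h2 h hT hc hb hcb).2
  have p3 := p2.ext (h.notB b hb) hab.symm
  refine h1 d (glue (x := a) (y := c) hca.symm p1 p3 h.neA ?_ (h.notA a ha) (h.notA c hc) ?_ ?_ ?_)
  · intro v hv hv'
    rcases hv' with h3 | h3
    · exact h.notA b hb (h3 ▸ hv)
    · exact h.disj v hv h3
  · intro h3
    rcases h3 with h3 | h3
    · exact hab.ne h3
    · exact h.notB a ha h3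
  · intro h3
    rcases h3 with h3 | h3
    · exact hcb h3
    · exact h.notB c hc h3
  · intro v
    constructor
    · intro hv
      have hv' : v ≠ d := by simpa using hv
      rcases h.cov v with h3 | h3 | h3
      · rcases (hmem v).1 h3 with h4 | h4 | h4 | h4
        · exact Or.inl h4
        · exact Or.inr (Or.inr (Or.inr (Or.inl h4)))
        · exact Or.inr (Or.inl h4)
        · exact absurd h4 hv'
      · exact Or.inr (Or.inr (Or.inl h3))
      · exact Or.inr (Or.inr (Or.inr (Or.inr h3)))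
    · intro hv
      have : v ≠ d := by
        rintro rfl
        rcases hv with h4 | h4 | h4 | h4 | h4
        · exact hda h4
        · exact hcd h4.symm
        · exact h.notA v hd h4
        · exact hdb h4
        · exact h.notB v hd h4
      simpa using this

end Pool.Agent.H48Cut
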