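import Pool.Agent.H58Ed.Cyc
import Pool.Agent.H58Ed.Seq

/-!
Paths with prescribed interior, given by sequences.
-/

set_option autoImplicit false

namespace Pool.Agent.H48Cut

open SimpleGraph Pool.Agent.H58Ed

/-- `g 0 = c, g 1, …, g k, g (k+1) = d` is a path of `G` whose inner vertices `g 1, …, g k` are
pairwise different and are exactly the elements of `A`. -/
structure SP {V : Type*} (G : SimpleGraph V) (A : Set V) (c d : V) (k : ℕ) (g : ℕ → V) :
    Prop where
  start : g 0 = c
  fin : g (k + 1) = d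
  adj : ∀ i, i ≤ k → G.Adj (g i) (g (i + 1))
  mem : ∀ i, 1 ≤ i → i ≤ k → g i ∈ A
  inj : ∀ i j, 1 ≤ i → i ≤ k → 1 ≤ j → j ≤ k → g i = g j → i = j
  surj : ∀ v ∈ A, ∃ i, 1 ≤ i ∧ i ≤ k ∧ g i = v

/-- There is a path from `c` to `d` whose set of inner vertices is exactly `A`. -/
def SPx {V : Type*} (G : SimpleGraph V) (A : Set V) (c d : V) : Prop :=
  ∃ (k : ℕ) (g : ℕ → V), SP G A c d k g

variable {V : Type*} {G : SimpleGraph V}

theorem SPx.edge {c d : V} (h : G.Adj c d) : SPx G ∅ c d := by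
  refine ⟨0, fun i => if i = 0 then c else d, ?_, ?_, ?_, ?_, ?_, ?_⟩
  · simp
  · simp
  · intro i hi
    have : i = 0 := by omega
    subst this
    simpa using h
  · intro i h1 h2; omega
  · intro i j h1 h2; omega
  · intro v hv; exact absurd hv (by simp)

theorem SPx.ext {A : Set V} {c b d : V} (h : SPx G A c b) (hb : b ∉ A) (hbd : G.Adj b d) :
    SPx G (insert b A) c d := by
  obtain ⟨k, g, h⟩ := h
  have e1 : ∀ i, i ≤ k + 1 → (if i ≤ k + 1 then g i else d) = g i := fun i hi => if_pos hi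
  have e2 : (if k + 1 + 1 ≤ k + 1 then g (k + 1 + 1) else d) = d := by simp
  refine ⟨k + 1, fun i => if i ≤ k + 1 then g i else d, ?_, ?_, ?_, ?_, ?_, ?_⟩
  · show (if 0 ≤ k + 1 then g 0 else d) = c
    rw [e1 0 (by omega)]; exact h.start
  · exact e2
  · intro i hi
    show G.Adj (if i ≤ k + 1 then g i else d) (if i + 1 ≤ k + 1 then g (i + 1) else d)
    rcases Nat.lt_or_ge i (k + 1) with h' | h'
    · rw [e1 i hi, e1 (i + 1) (by omega)]
      exact h.adj i (by omega)
    · have : i = k + 1 := by omega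
      subst this
      rw [e1 (k + 1) le_rfl, e2, h.fin]
      exact hbd
  · intro i h1 h2
    show (if i ≤ k + 1 then g i else d) ∈ insert b A
    rw [e1 i h2]
    rcases Nat.lt_or_ge i (k + 1) with h' | h'
    · exact Set.mem_insert_of_mem _ (h.mem i h1 (by omega))
    · have : i = k + 1 := by omega
      subst this
      rw [h.fin]; exact Set.mem_insert _ _
  · intro i j h1 h2 h3 h4 hij
    have hij' : g i = g j := by
      have : (if i ≤ k + 1 then g i else d) = (if j ≤ k + 1 then g j else d) := hij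
      rwa [e1 i h2, e1 j h4] at this
    rcases Nat.lt_or_ge i (k + 1) with hi | hi <;> rcases Nat.lt_or_ge j (k + 1) with hj | hj
    · exact h.inj i j h1 (by omega) h3 (by omega) hij'
    · have : j = k + 1 := by omega
      subst this
      rw [h.fin] at hij'
      exact absurd (hij' ▸ h.mem i h1 (by omega)) hb
    · have : i = k + 1 := by omega
      subst this
      rw [h.fin] at hij'
      exact absurd (hij'.symm ▸ h.mem j h3 (by omega)) hb
    · omega
  · intro v hv
    rcases hv with hv | hv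
    · refine ⟨k + 1, by omega, le_rfl, ?_⟩
      show (if k + 1 ≤ k + 1 then g (k + 1) else d) = v
      rw [e1 _ le_rfl, h.fin, hv]
    · obtain ⟨i, h1, h2, h3⟩ := h.surj v hv
      refine ⟨i, h1, by omega, ?_⟩
      show (if i ≤ k + 1 then g i else d) = v
      rw [e1 i (by omega), h3]

theorem SPx.rev {A : Set V} {c d : V} (h : SPx G A c d) : SPx G A d c := by
  obtain ⟨k, g, h⟩ := h
  refine ⟨k, fun i => g (k + 1 - i), ?_, ?_, ?_, ?_, ?_, ?_⟩
  · simpa using h.fin
  · simpa using h.start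
  · intro i hi
    show G.Adj (g (k + 1 - i)) (g (k + 1 - (i + 1)))
    have := h.adj (k - i) (by omega)
    rw [show k + 1 - i = k - i + 1 by omega, show k + 1 - (i + 1) = k - i by omega]
    exact this.symm
  · intro i h1 h2
    exact h.mem _ (by omega) (by omega)
  · intro i j h1 h2 h3 h4 hij
    have := h.inj (k + 1 - i) (k + 1 - j) (by omega) (by omega) (by omega) (by omega) hij
    omega
  · intro v hv
    obtain ⟨i, h1, h2, h3⟩ := h.surj v hv
    refine ⟨k + 1 - i, by omega, by omega, ?_⟩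
    show g (k + 1 - (k + 1 - i)) = v
    rw [show k + 1 - (k + 1 - i) = i by omega, h3]

/-- two paths with disjoint interiors form a cycle -/
theorem glue [Finite V] [DecidableEq V] {A B S : Set V} {x y : V} (hxy : x ≠ y)
    (h1 : SPx G A x y) (h2 : SPx G B y x) (hA : A.Nonempty)
    (hd : ∀ v ∈ A, v ∉ B) (hxA : x ∉ A) (hyA : y ∉ A) (hxB : x ∉ B) (hyB : y ∉ B)
    (hS : ∀ v, v ∈ S ↔ v = x ∨ v = y ∨ v ∈ A ∨ v ∈ B) :
    ∃ a : ↥S, ∃ p : (G.induce S).Walk a a, p.IsHamiltonianCycle := by
  obtain ⟨k, g, h1⟩ := h1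
  obtain ⟨l, f, h2⟩ := h2
  have hk : 1 ≤ k := by
    obtain ⟨v, hv⟩ := hA
    obtain ⟨i, hi1, hi2, _⟩ := h1.surj v hv
    omega
  have e1 : ∀ i, i ≤ k → (if i ≤ k then g i else f (i - (k + 1))) = g i := fun i hi => if_pos hi
  have e2 : ∀ i, k + 1 ≤ i → (if i ≤ k then g i else f (i - (k + 1))) = f (i - (k + 1)) :=
    fun i hi => if_neg (by omega)
  -- classification of positions
  have c1 : ∀ i, i ≤ k → (i = 0 ∧ g i = x) ∨ (1 ≤ i ∧ g i ∈ A) := by
    intro i hi
    rcases Nat.eq_zero_or_pos i with h | h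
    · left; subst h; exact ⟨rfl, h1.start⟩
    · right; exact ⟨h, h1.mem i h hi⟩
  have c2 : ∀ i, i ≤ l → (i = 0 ∧ f i = y) ∨ (1 ≤ i ∧ f i ∈ B) := by
    intro i hi
    rcases Nat.eq_zero_or_pos i with h | h
    · left; subst h; exact ⟨rfl, h2.start⟩
    · right; exact ⟨h, h2.mem i h hi⟩
  have cross : ∀ i j, i ≤ k → j ≤ l → g i ≠ f j := by
    intro i j hi hj heq
    rcases c1 i hi with ⟨_, hg⟩ | ⟨_, hg⟩ <;> rcases c2 j hj with ⟨_, hf⟩ | ⟨_, hf⟩
    · exact hxy (by rw [← hg, heq, hf])
    · rw [← heq, hg] at hf; exact hxB hf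
    · rw [heq, hf] at hg; exact hyA hg
    · rw [heq] at hg; exact hd _ hg hf
  refine ham_induce_of_seq G S (k + 1 + (l + 1)) (fun i => if i ≤ k then g i else f (i - (k + 1)))
    (by omega) ?_ ?_ ?_ ?_ ?_
  · intro i hi
    show G.Adj (if i ≤ k then g i else f (i - (k + 1)))
      (if i + 1 ≤ k then g (i + 1) else f (i + 1 - (k + 1)))
    rcases Nat.lt_or_ge i k with h | h
    · rw [e1 i (by omega), e1 (i + 1) (by omega)]
      exact h1.adj i (by omega)
    · rcases Nat.lt_or_ge i (k + 1) with h' | h'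
      · have hik : i = k := by omega
        subst hik
        rw [e1 i le_rfl, e2 (i + 1) le_rfl, Nat.sub_self, h2.start, ← h1.fin]
        exact h1.adj i le_rfl
      · rw [e2 i h', e2 (i + 1) (by omega), show i + 1 - (k + 1) = i - (k + 1) + 1 by omega]
        exact h2.adj _ (by omega)
  · show G.Adj (if k + 1 + (l + 1) - 1 ≤ k then g (k + 1 + (l + 1) - 1)
      else f (k + 1 + (l + 1) - 1 - (k + 1))) (if 0 ≤ k then g 0 else f (0 - (k + 1)))
    rw [e2 _ (by omega), e1 0 (by omega), show k + 1 + (l + 1) - 1 - (k + 1) = l by omega,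
      h1.start, ← h2.fin]
    exact h2.adj l le_rfl
  · intro i j hi hj hij
    have hij' : (if i ≤ k then g i else f (i - (k + 1)))
      = (if j ≤ k then g j else f (j - (k + 1))) := hij
    rcases Nat.lt_or_ge i (k + 1) with hi' | hi' <;> rcases Nat.lt_or_ge j (k + 1) with hj' | hj'
    · rw [e1 i (by omega), e1 j (by omega)] at hij'
      rcases c1 i (by omega) with ⟨a1, a2⟩ | ⟨a1, a2⟩ <;>
        rcases c1 j (by omega) with ⟨b1, b2⟩ | ⟨b1, b2⟩
      · omega
      · rw [← hij', a2] at b2; exact absurd b2 hxA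
      · rw [hij', b2] at a2; exact absurd a2 hxA
      · exact h1.inj i j a1 (by omega) b1 (by omega) hij'
    · rw [e1 i (by omega), e2 j hj'] at hij'
      exact absurd hij' (cross i _ (by omega) (by omega))
    · rw [e2 i hi', e1 j (by omega)] at hij'
      exact absurd hij'.symm (cross j _ (by omega) (by omega))
    · rw [e2 i hi', e2 j hj'] at hij'
      rcases c2 (i - (k + 1)) (by omega) with ⟨a1, a2⟩ | ⟨a1, a2⟩ <;>
        rcases c2 (j - (k + 1)) (by omega) with ⟨b1, b2⟩ | ⟨b1, b2⟩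
      · omega
      · rw [← hij', a2] at b2; exact absurd b2 hyB
      · rw [hij', b2] at a2; exact absurd a2 hyB
      · have := h2.inj _ _ a1 (by omega) b1 (by omega) hij'
        omega
  · intro i hi
    show (if i ≤ k then g i else f (i - (k + 1))) ∈ S
    rw [hS]
    rcases Nat.lt_or_ge i (k + 1) with hi' | hi'
    · rw [e1 i (by omega)]
      rcases c1 i (by omega) with ⟨_, a2⟩ | ⟨_, a2⟩
      · exact Or.inl a2
      · exact Or.inr (Or.inr (Or.inl a2))
    · rw [e2 i hi']
      rcases c2 (i - (k + 1)) (by omega) with ⟨_, a2⟩ | ⟨_, a2⟩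
      · exact Or.inr (Or.inl a2)
      · exact Or.inr (Or.inr (Or.inr a2))
  · intro v hv
    rw [hS] at hv
    rcases hv with hv | hv | hv | hv
    · exact ⟨0, by omega, by
        show (if 0 ≤ k then g 0 else f (0 - (k + 1))) = v
        rw [e1 0 (by omega), h1.start, hv]⟩
    · exact ⟨k + 1, by omega, by
        show (if k + 1 ≤ k then g (k + 1) else f (k + 1 - (k + 1))) = v
        rw [e2 _ le_rfl, Nat.sub_self, h2.start, hv]⟩
    · obtain ⟨i, i1, i2, i3⟩ := h1.surj v hv
      exact ⟨i, by omega, by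
        show (if i ≤ k then g i else f (i - (k + 1))) = v
        rw [e1 i i2, i3]⟩
    · obtain ⟨i, i1, i2, i3⟩ := h2.surj v hv
      exact ⟨k + 1 + i, by omega, by
        show (if k + 1 + i ≤ k then g (k + 1 + i) else f (k + 1 + i - (k + 1))) = v
        rw [e2 _ (by omega), show k + 1 + i - (k + 1) = i by omega, i3]⟩

end Pool.Agent.H48Cut
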