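import Pool.Agent.H48Cut.Main

/-!
No side of a 4-cut has two or three vertices.
-/

set_option autoImplicit false

namespace Pool.Agent.H48Cut

open SimpleGraph Pool.Agent.H58Ed

variable {V : Type*} {G : SimpleGraph V}

theorem SP.len {A : Set V} {c d : V} {k : ℕ} {g : ℕ → V} (h : SP G A c d k g) : A.ncard = k := by
  have e : A = g '' (Set.Icc 1 k) := by
    ext v
    constructor
    · intro hv
      obtain ⟨i, h1, h2, h3⟩ := h.surj v hv
      exact ⟨i, ⟨h1, h2⟩, h3⟩
    · rintro ⟨i, ⟨h1, h2⟩, rfl⟩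
      exact h.mem i h1 h2
  rw [e, Set.ncard_image_of_injOn]
  · rw [Set.ncard_eq_toFinset_card']
    simp
  · intro i hi j hj hij
    exact h.inj i j hi.1 hi.2 hj.1 hj.2 hij

variable [Fintype V] [DecidableEq V]

/-- a cut vertex cannot be inserted into a spanning path of a side -/
theorem beta (h1 : ∀ v : V, ¬ ∃ a : ↥(({v}ᶜ : Set V)),
      ∃ p : (G.induce ({v}ᶜ : Set V)).Walk a a, p.IsHamiltonianCycle)
    (h2 : ∀ v w : V, v ≠ w → ∃ (m : ℕ) (f : ℕ → V), Cyc G ({v, w}ᶜ : Set V) m f)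
    {T : Finset V} {A B : Set V} (h : Sep G T A B) (hT : T.card = 4) {b c d : V} (hb : b ∈ T)
    (hc : c ∈ T) (hd : d ∈ T) (hbc : b ≠ c) (hbd : b ≠ d) (hcd : c ≠ d)
    (hp : SPx G (insert b A) c d) : False := by
  obtain ⟨v, w, hvw, hv, hw, hvc, hvd, hwc, hwd, hmem⟩ := rest hT hc hd hcd
  -- `b` is one of `v`, `w`
  obtain ⟨e, he, hec, hed, heb, hmem'⟩ : ∃ e, e ∈ T ∧ e ≠ c ∧ e ≠ d ∧ e ≠ b ∧
      ∀ x, x ∈ T ↔ x = c ∨ x = d ∨ x = b ∨ x = e := by
    rcases (hmem b).1 hb with h3 | h3 | h3 | h3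
    · exact absurd h3 hbc
    · exact absurd h3 hbd
    · subst h3
      exact ⟨w, hw, hwc, hwd, hvw.symm, hmem⟩
    · subst h3
      refine ⟨v, hv, hvc, hvd, hvw, ?_⟩
      intro x
      rw [hmem x]
      tauto
  have p2 := (paths4 h2 h hT hd hc hcd.symm).2
  refine h1 e (glue (x := c) (y := d) hcd hp p2 ⟨b, Set.mem_insert _ _⟩ ?_ ?_ ?_ (h.notB c hc)
    (h.notB d hd) ?_)
  · intro v hv
    rcases hv with h3 | h3
    · rw [h3]; exact h.notB b hb
    · exact h.disj v h3
  · intro h3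
    rcases h3 with h3 | h3
    · exact hbc h3.symm
    · exact h.notA c hc h3
  · intro h3
    rcases h3 with h3 | h3
    · exact hbd h3.symm
    · exact h.notA d hd h3
  · intro v
    constructor
    · intro hv
      have hv' : v ≠ e := by simpa using hv
      rcases h.cov v with h3 | h3 | h3
      · rcases (hmem' v).1 h3 with h4 | h4 | h4 | h4
        · exact Or.inl h4
        · exact Or.inr (Or.inl h4)
        · exact Or.inr (Or.inr (Or.inl (Or.inl h4)))
        · exact absurd h4 hv'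
      · exact Or.inr (Or.inr (Or.inl (Or.inr h3)))
      · exact Or.inr (Or.inr (Or.inr h3))
    · intro hv
      have : v ≠ e := by
        rintro rfl
        rcases hv with h4 | h4 | (h4 | h4) | h4
        · exact hec h4
        · exact hed h4
        · exact heb h4
        · exact h.notA v he h4
        · exact h.notB v he h4
      simpa using this

/-- every vertex has at least four neighbours (here: one with a non-neighbour) -/
theorem four_nbrs (h5 : 5 ≤ Fintype.card V)
    (h2 : ∀ v w : V, v ≠ w → ∃ (m : ℕ) (f : ℕ → V), Cyc G ({v, w}ᶜ : Set V) m f)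
    [DecidableRel G.Adj] {x y : V} (hxy : x ≠ y) (hn : ¬ G.Adj x y) :
    4 ≤ (Finset.univ.filter (fun u => G.Adj x u)).card := by
  refine four_le h5 h2 (T := Finset.univ.filter (fun u => G.Adj x u)) (A := {x})
    (B := {u | u ≠ x ∧ ¬ G.Adj x u}) ?_
  refine ⟨?_, ?_, ?_, ?_, ⟨x, rfl⟩, ⟨y, hxy.symm, hn⟩, ?_⟩
  · intro u
    by_cases hu : u = x
    · right; left; exact hu
    · by_cases hu' : G.Adj x u
      · left; simpa using hu'
      · right; right; exact ⟨hu, hu'⟩
  · intro u hu hu'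
    have h3 : u = x := hu'
    subst h3
    simp at hu
  · intro u hu hu'
    have h3 : G.Adj x u := by simpa using hu
    exact hu'.2 h3
  · intro u hu hu'
    exact hu'.1 hu
  · intro u hu v hv huv
    have h3 : u = x := hu
    subst h3
    exact hv.2 huv

/-- `c – x – b – y – d` -/
theorem mk4 {x y b c d : V} (hxy : x ≠ y) (hbx : b ≠ x) (hby : b ≠ y) (h1 : G.Adj c x)
    (h2 : G.Adj x b) (h3 : G.Adj b y) (h4 : G.Adj y d) : SPx G (insert b ({x, y} : Set V)) c d := by
  have p1 := SPx.edge h1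
  have p2 := p1.ext (by simp) h2
  have p3 := p2.ext (b := b) (by simpa using hbx) h3
  have p4 := p3.ext (b := y) (by simp [hxy.symm, hby.symm]) h4
  have e : insert y (insert b (insert x (∅ : Set V))) = insert b ({x, y} : Set V) := by
    ext u; simp; tauto
  rw [e] at p4
  exact p4

/-- `c – x – b – y – z – d` -/
theorem mk5 {x y z b c d : V} (hxy : x ≠ y) (hxz : x ≠ z) (hyz : y ≠ z) (hbx : b ≠ x)
    (hby : b ≠ y) (hbz : b ≠ z) (h1 : G.Adj c x) (h2 : G.Adj x b) (h3 : G.Adj b y)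
    (h4 : G.Adj y z) (h5 : G.Adj z d) : SPx G (insert b ({x, y, z} : Set V)) c d := by
  have p1 := mk4 hxy hbx hby h1 h2 h3 h4
  have p2 := p1.ext (b := z) (by simp [hxz.symm, hyz.symm, hbz.symm]) h5
  have e : insert z (insert b ({x, y} : Set V)) = insert b ({x, y, z} : Set V) := by
    ext u; simp; tauto
  rw [e] at p2
  exact p2

/-- no side of a 4-cut has exactly two vertices -/
theorem ne_two (h1 : ∀ v : V, ¬ ∃ a : ↥(({v}ᶜ : Set V)),
      ∃ p : (G.induce ({v}ᶜ : Set V)).Walk a a, p.IsHamiltonianCycle)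
    (h2 : ∀ v w : V, v ≠ w → ∃ (m : ℕ) (f : ℕ → V), Cyc G ({v, w}ᶜ : Set V) m f)
    {T : Finset V} {A B : Set V} (h : Sep G T A B) (hT : T.card = 4) : A.ncard ≠ 2 := by
  classical
  intro hA2
  obtain ⟨x, y, hxy, hA⟩ := Set.ncard_eq_two.1 hA2
  have hxA : x ∈ A := by rw [hA]; simp
  have hyA : y ∈ A := by rw [hA]; simp
  -- the adjacency pattern
  have key : ∀ c ∈ T, ∀ d ∈ T, c ≠ d →
      (G.Adj c x ∧ G.Adj y d) ∨ (G.Adj c y ∧ G.Adj x d) := by
    intro c hc d hd hcd
    obtain ⟨k, g, hg⟩ := (paths4 h2 h hT hc hd hcd).1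
    have hk : k = 2 := by rw [← hg.len, hA2]
    subst hk
    have m1 : g 1 = x ∨ g 1 = y := by simpa [hA] using hg.mem 1 le_rfl (by norm_num)
    have m2 : g 2 = x ∨ g 2 = y := by simpa [hA] using hg.mem 2 (by norm_num) le_rfl
    have hne : g 1 ≠ g 2 := fun e => by
      have := hg.inj 1 2 le_rfl (by norm_num) (by norm_num) le_rfl e
      omega
    have a1 : G.Adj c (g 1) := by have := hg.adj 0 (by norm_num); rwa [hg.start] at this
    have a2 : G.Adj (g 2) d := by have := hg.adj 2 le_rfl; rwa [hg.fin] at this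
    rcases m1 with m1 | m1 <;> rcases m2 with m2 | m2
    · exact absurd (m1.trans m2.symm) hne
    · left; rw [m1] at a1; rw [m2] at a2; exact ⟨a1, a2⟩
    · right; rw [m1] at a1; rw [m2] at a2; exact ⟨a1, a2⟩
    · exact absurd (m1.trans m2.symm) hne
  set X := T.filter (fun t => G.Adj t x) with hX
  set Y := T.filter (fun t => G.Adj t y) with hY
  have hX3 : (T \ X).card ≤ 1 := by
    rw [Finset.card_le_one]
    intro c hc d hd
    by_contra hcd
    rw [hX, Finset.mem_sdiff, Finset.mem_filter] at hc hd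
    rcases key c hc.1 d hd.1 hcd with h3 | h3
    · exact hc.2 ⟨hc.1, h3.1⟩
    · exact hd.2 ⟨hd.1, h3.2.symm⟩
  have hY3 : (T \ Y).card ≤ 1 := by
    rw [Finset.card_le_one]
    intro c hc d hd
    by_contra hcd
    rw [hY, Finset.mem_sdiff, Finset.mem_filter] at hc hd
    rcases key c hc.1 d hd.1 hcd with h3 | h3
    · exact hd.2 ⟨hd.1, h3.2.symm⟩
    · exact hc.2 ⟨hc.1, h3.1⟩
  have hXT : X ⊆ T := Finset.filter_subset _ _
  have hYT : Y ⊆ T := Finset.filter_subset _ _
  have cX : 3 ≤ X.card := by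
    have := Finset.card_sdiff_add_card_eq_card hXT
    omega
  have cY : 3 ≤ Y.card := by
    have := Finset.card_sdiff_add_card_eq_card hYT
    omega
  have cXY : 2 ≤ (X ∩ Y).card := by
    have e1 := Finset.card_union_add_card_inter X Y
    have e2 : (X ∪ Y).card ≤ T.card := Finset.card_le_card (Finset.union_subset hXT hYT)
    omega
  obtain ⟨b, hb⟩ : (X ∩ Y).Nonempty := Finset.card_pos.1 (by omega)
  rw [Finset.mem_inter] at hb
  obtain ⟨c, hc⟩ : (X.erase b).Nonempty := Finset.card_pos.1 (by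
    rw [Finset.card_erase_of_mem hb.1]; omega)
  rw [Finset.mem_erase] at hc
  obtain ⟨d, hd⟩ : ((Y.erase b).erase c).Nonempty := Finset.card_pos.1 (by
    have e1 := Finset.pred_card_le_card_erase (s := Y.erase b) (a := c)
    rw [Finset.card_erase_of_mem hb.2] at e1
    omega)
  rw [Finset.mem_erase, Finset.mem_erase] at hd
  have hbx : G.Adj b x := (Finset.mem_filter.1 hb.1).2
  have hby : G.Adj b y := (Finset.mem_filter.1 hb.2).2
  have hcx : G.Adj c x := (Finset.mem_filter.1 hc.2).2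
  have hdy : G.Adj d y := (Finset.mem_filter.1 hd.2.2).2
  have hbT := hXT hb.1
  have hcT := hXT hc.2
  have hdT := hYT hd.2.2
  refine beta h1 h2 h hT (b := b) (c := c) (d := d) hbT hcT hdT hc.1.symm hd.2.1.symm hd.1.symm ?_
  rw [hA]
  exact mk4 hxy (fun e => h.notA b hbT (e ▸ hxA)) (fun e => h.notA b hbT (e ▸ hyA)) hcx hbx.symm
    hby hdy.symm

end Pool.Agent.H48Cut
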