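import Pool.Agent.H48Cut.Paths

/-!
A Hamiltonian cycle passes a cut of two vertices in two arcs.
-/

set_option autoImplicit false

namespace Pool.Agent.H48Cut

open SimpleGraph Pool.Agent.H58Ed

variable {V : Type*} {G : SimpleGraph V}

theorem arc_one {S X : Set V} {m : ℕ} {f : ℕ → V} {a c : V} (h : Cyc G S m f) (h0 : f 0 = a)
    {j : ℕ} (hj0 : 0 < j) (hjm : j < m) (hj : f j = c) (hin : ∀ i, 1 ≤ i → i < j → f i ∈ X)
    (hout : ∀ v ∈ X, ∃ i, 1 ≤ i ∧ i < j ∧ f i = v) : SPx G X a c := by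
  refine ⟨j - 1, f, h0, ?_, ?_, ?_, ?_, ?_⟩
  · rw [show j - 1 + 1 = j by omega]; exact hj
  · intro i _; exact h.adj i
  · intro i h1 h2; exact hin i h1 (by omega)
  · intro i k h1 h2 h3 h4 hik; exact h.inj i k (by omega) (by omega) hik
  · intro v hv
    obtain ⟨i, h1, h2, h3⟩ := hout v hv
    exact ⟨i, h1, by omega, h3⟩

theorem arc_two {S X : Set V} {m : ℕ} {f : ℕ → V} {a c : V} (h : Cyc G S m f) (h0 : f 0 = a)
    {j : ℕ} (hj0 : 0 < j) (hjm : j < m) (hj : f j = c)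
    (hin : ∀ i, j < i → i < m → f i ∈ X)
    (hout : ∀ v ∈ X, ∃ i, j < i ∧ i < m ∧ f i = v) : SPx G X c a := by
  refine ⟨m - 1 - j, fun i => f (j + i), ?_, ?_, ?_, ?_, ?_, ?_⟩
  · show f (j + 0) = c
    exact hj
  · show f (j + (m - 1 - j + 1)) = a
    rw [show j + (m - 1 - j + 1) = 0 + m by omega, h.per]
    exact h0
  · intro i _
    show G.Adj (f (j + i)) (f (j + (i + 1)))
    exact h.adj (j + i)
  · intro i h1 h2; exact hin (j + i) (by omega) (by omega)
  · intro i k h1 h2 h3 h4 hik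
    have := h.inj (j + i) (j + k) (by omega) (by omega) hik
    omega
  · intro v hv
    obtain ⟨i, h1, h2, h3⟩ := hout v hv
    exact ⟨i - j, by omega, by omega, by
      show f (j + (i - j)) = v
      rw [show j + (i - j) = i by omega, h3]⟩

/-- positions with no cut vertex stay on one side -/
theorem run_side {A B : Set V} (hsep : ∀ x ∈ A, ∀ y ∈ B, ¬ G.Adj x y)
    {f : ℕ → V} (hadj : ∀ i, G.Adj (f i) (f (i + 1))) (p q : ℕ)
    (hside : ∀ i, p ≤ i → i < q → f i ∈ A ∨ f i ∈ B) :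
    (∀ i, p ≤ i → i < q → f i ∈ A) ∨ (∀ i, p ≤ i → i < q → f i ∈ B) := by
  rcases Nat.lt_or_ge p q with hpq | hpq
  · rcases hside p le_rfl hpq with h | h
    · left
      intro i hi
      induction i, hi using Nat.le_induction with
      | base => intro _; exact h
      | succ i hi ih =>
        intro hq
        rcases hside (i + 1) (by omega) hq with h' | h'
        · exact h'
        · exact absurd (hadj i) (hsep _ (ih (by omega)) _ h')
    · right
      intro i hi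
      induction i, hi using Nat.le_induction with
      | base => intro _; exact h
      | succ i hi ih =>
        intro hq
        rcases hside (i + 1) (by omega) hq with h' | h'
        · exact absurd (hadj i).symm (hsep _ h' _ (ih (by omega)))
        · exact h'
  · left
    intro i h1 h2
    omega

theorem split {S A B : Set V} {m : ℕ} {f : ℕ → V} {a c : V} (h : Cyc G S m f)
    (ha : a ∈ S) (hc : c ∈ S) (hac : a ≠ c)
    (hcov : ∀ v ∈ S, v = a ∨ v = c ∨ v ∈ A ∨ v ∈ B) (hAS : A ⊆ S) (hBS : B ⊆ S)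
    (hA : A.Nonempty) (hB : B.Nonempty) (hd : ∀ v ∈ A, v ∉ B)
    (haA : a ∉ A) (haB : a ∉ B) (hcA : c ∉ A) (hcB : c ∉ B)
    (hsep : ∀ x ∈ A, ∀ y ∈ B, ¬ G.Adj x y) : SPx G A a c ∧ SPx G B a c := by
  obtain ⟨i0, _, hi0⟩ := h.surj a ha
  have h' := h.shift i0
  obtain ⟨g, hg⟩ : ∃ g : ℕ → V, g = fun i => f (i + i0) := ⟨_, rfl⟩
  rw [← hg] at h'
  have g0 : g 0 = a := by rw [hg]; show f (0 + i0) = a; rw [Nat.zero_add]; exact hi0
  obtain ⟨j, hjm, hj⟩ := h'.surj c hc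
  have hj0 : 0 < j := by
    rcases Nat.eq_zero_or_pos j with h0 | h0
    · subst h0; exact absurd (g0.symm.trans hj) hac
    · exact h0
  have hside : ∀ i, i < m → i ≠ 0 → i ≠ j → g i ∈ A ∨ g i ∈ B := by
    intro i him hi0 hij
    rcases hcov (g i) (h'.mem i) with h1 | h1 | h1
    · exact absurd (h'.inj i 0 him (by omega) (h1.trans g0.symm)) hi0
    · exact absurd (h'.inj i j him hjm (h1.trans hj.symm)) hij
    · exact h1
  have hpos : ∀ v ∈ S, v ≠ a → v ≠ c → ∃ i, g i = v ∧ ((1 ≤ i ∧ i < j) ∨ (j < i ∧ i < m)) := by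
    intro v hv hva hvc
    obtain ⟨i, him, hi⟩ := h'.surj v hv
    have h1 : i ≠ 0 := by rintro rfl; exact hva (hi.symm.trans g0)
    have h2 : i ≠ j := by rintro rfl; exact hvc (hi.symm.trans hj)
    exact ⟨i, hi, by omega⟩
  have r1 := run_side (G := G) hsep h'.adj 1 j (fun i h1 h2 => hside i (by omega) (by omega) (by omega))
  have r2 := run_side (G := G) hsep h'.adj (j + 1) m (fun i h1 h2 => hside i (by omega) (by omega) (by omega))
  have pA : ∀ v ∈ A, ∃ i, g i = v ∧ ((1 ≤ i ∧ i < j) ∨ (j < i ∧ i < m)) := fun v hv =>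
    hpos v (hAS hv) (fun e => haA (e ▸ hv)) (fun e => hcA (e ▸ hv))
  have pB : ∀ v ∈ B, ∃ i, g i = v ∧ ((1 ≤ i ∧ i < j) ∨ (j < i ∧ i < m)) := fun v hv =>
    hpos v (hBS hv) (fun e => haB (e ▸ hv)) (fun e => hcB (e ▸ hv))
  rcases r1 with r1 | r1 <;> rcases r2 with r2 | r2
  · exfalso
    obtain ⟨v, hv⟩ := hB
    obtain ⟨i, hi, h1 | h1⟩ := pB v hv
    · exact hd _ (r1 i h1.1 h1.2) (hi.symm ▸ hv)
    · exact hd _ (r2 i h1.1 h1.2) (hi.symm ▸ hv)
  · refine ⟨arc_one h' g0 hj0 hjm hj r1 ?_, (arc_two h' g0 hj0 hjm hj (fun i h1 h2 => r2 i h1 h2) ?_).rev⟩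
    · intro v hv
      obtain ⟨i, hi, h1 | h1⟩ := pA v hv
      · exact ⟨i, h1.1, h1.2, hi⟩
      · exact absurd (r2 i h1.1 h1.2) (hi.symm ▸ hd v hv)
    · intro v hv
      obtain ⟨i, hi, h1 | h1⟩ := pB v hv
      · exact absurd (hi.symm ▸ hv) (hd _ (r1 i h1.1 h1.2))
      · exact ⟨i, h1.1, h1.2, hi⟩
  · refine ⟨(arc_two h' g0 hj0 hjm hj (fun i h1 h2 => r2 i h1 h2) ?_).rev, arc_one h' g0 hj0 hjm hj r1 ?_⟩
    · intro v hv
      obtain ⟨i, hi, h1 | h1⟩ := pA v hv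
      · exact absurd (r1 i h1.1 h1.2) (hi.symm ▸ hd v hv)
      · exact ⟨i, h1.1, h1.2, hi⟩
    · intro v hv
      obtain ⟨i, hi, h1 | h1⟩ := pB v hv
      · exact ⟨i, h1.1, h1.2, hi⟩
      · exact absurd (hi.symm ▸ hv) (hd _ (r2 i h1.1 h1.2))
  · exfalso
    obtain ⟨v, hv⟩ := hA
    obtain ⟨i, hi, h1 | h1⟩ := pA v hv
    · exact hd v hv (hi ▸ r1 i h1.1 h1.2)
    · exact hd v hv (hi ▸ r2 i h1.1 h1.2)

/-- a cycle cannot be separated by at most one vertex -/
theorem no_one_cut {S A B : Set V} {m : ℕ} {f : ℕ → V} {a : V} (h : Cyc G S m f)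
    (hcov : ∀ v ∈ S, v = a ∨ v ∈ A ∨ v ∈ B) 
    (hA : ∃ v ∈ A, v ∈ S ∧ v ≠ a) (hB : ∃ v ∈ B, v ∈ S ∧ v ≠ a) (hd : ∀ v ∈ A, v ∉ B)
    (hsep : ∀ x ∈ A, ∀ y ∈ B, ¬ G.Adj x y) : False := by
  have h3 := h.three
  -- a shift after which only position 0 can be `a`
  obtain ⟨g, hg, hg0⟩ : ∃ g : ℕ → V, Cyc G S m g ∧ ∀ i, 1 ≤ i → i < m → g i ≠ a := by
    by_cases haS : a ∈ S
    · obtain ⟨i0, _, hi0⟩ := h.surj a haS
      have h' := h.shift i0
      refine ⟨_, h', ?_⟩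
      intro i h1 h2 h4
      have h5 : (fun i => f (i + i0)) 0 = a := by
        show f (0 + i0) = a
        rw [Nat.zero_add]; exact hi0
      have := h'.inj i 0 h2 (by omega) (h4.trans h5.symm)
      omega
    · exact ⟨f, h, fun i _ _ h4 => haS (h4 ▸ h.mem i)⟩
  have hside : ∀ i, 1 ≤ i → i < m → g i ∈ A ∨ g i ∈ B := by
    intro i h1 h2
    rcases hcov _ (hg.mem i) with h4 | h4
    · exact absurd h4 (hg0 i h1 h2)
    · exact h4
  have r := run_side (G := G) hsep hg.adj 1 m hside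
  -- position 0: either `a` or on the same side as position 1
  obtain ⟨u, hu, huS, hua⟩ := hA
  obtain ⟨w, hw, hwS, hwa⟩ := hB
  obtain ⟨i, him, hi⟩ := hg.surj u huS
  obtain ⟨k, hkm, hk⟩ := hg.surj w hwS
  rcases r with r | r
  · have hk0 : k = 0 := by
      by_contra hk0
      exact hd _ (r k (by omega) hkm) (hk.symm ▸ hw)
    subst hk0
    have h1 := r 1 le_rfl (by omega)
    have h2 : G.Adj (g 1) (g 0) := (hg.adj 0).symm
    rw [hk] at h2
    exact hsep _ h1 _ hw h2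
  · have hi0 : i = 0 := by
      by_contra hi0
      exact hd _ hu (hi ▸ r i (by omega) him)
    subst hi0
    have h1 := r 1 le_rfl (by omega)
    have h2 : G.Adj (g 0) (g 1) := hg.adj 0
    rw [hi] at h2
    exact hsep _ hu _ h1 h2

end Pool.Agent.H48Cut
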