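import Pool.Agent.H48Cut.Small

/-!
No side of a 4-cut has three vertices.
-/

set_option autoImplicit false

namespace Pool.Agent.H48Cut

open SimpleGraph Pool.Agent.H58Ed

variable {V : Type*} {G : SimpleGraph V} [Fintype V] [DecidableEq V]

/-- the finite part of the argument -/
theorem comb {P Q R : Finset V} {b : V} (hP : b ∈ P) (hQ : b ∈ Q) (hR2 : 2 ≤ R.card)
    (hP2 : 2 ≤ P.card)
    (hno : ∀ c ∈ P, ∀ d ∈ R, c ≠ b → d ≠ b → c ≠ d → False) :
    P = R ∧ R.card = 2 := by
  -- for every `c ∈ P \ {b}` : `R ⊆ {b, c}`, hence `R = {b, c}`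
  have h1 : ∀ c ∈ P, c ≠ b → R = {b, c} := by
    intro c hc hcb
    have hsub : R ⊆ {b, c} := by
      intro d hd
      rw [Finset.mem_insert, Finset.mem_singleton]
      by_contra hne
      push Not at hne
      exact hno c hc d hd hcb hne.1 (fun e => hne.2 e.symm)
    apply Finset.eq_of_subset_of_card_le hsub
    have := Finset.card_le_two (a := b) (b := c)
    omega
  obtain ⟨c, hc⟩ : (P.erase b).Nonempty := Finset.card_pos.1 (by
    rw [Finset.card_erase_of_mem hP]; omega)
  rw [Finset.mem_erase] at hc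
  have hR := h1 c hc.2 hc.1
  refine ⟨?_, ?_⟩
  · rw [hR]
    ext u
    rw [Finset.mem_insert, Finset.mem_singleton]
    constructor
    · intro hu
      by_cases hub : u = b
      · exact Or.inl hub
      · right
        have h2 := h1 u hu hub
        rw [hR] at h2
        have h3 : u ∈ ({b, c} : Finset V) := by rw [h2]; simp
        rw [Finset.mem_insert, Finset.mem_singleton] at h3
        rcases h3 with h3 | h3
        · exact absurd h3 hub
        · exact h3
    · rintro (rfl | rfl)
      · exact hP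
      · exact hc.2
  · rw [hR, Finset.card_pair hc.1.symm]

/-- no side of a 4-cut has exactly three vertices -/
theorem ne_three (h5 : 5 ≤ Fintype.card V) (h1 : ∀ v : V, ¬ ∃ a : ↥(({v}ᶜ : Set V)),
      ∃ p : (G.induce ({v}ᶜ : Set V)).Walk a a, p.IsHamiltonianCycle)
    (h2 : ∀ v w : V, v ≠ w → ∃ (m : ℕ) (f : ℕ → V), Cyc G ({v, w}ᶜ : Set V) m f)
    {T : Finset V} {A B : Set V} (h : Sep G T A B) (hT : T.card = 4) : A.ncard ≠ 3 := by
  classical
  intro hA3
  -- a path `x y z` spanning `A`
  obtain ⟨t1, ht1⟩ : T.Nonempty := Finset.card_pos.1 (by omega)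
  obtain ⟨t2, ht2⟩ : (T.erase t1).Nonempty := Finset.card_pos.1 (by
    rw [Finset.card_erase_of_mem ht1]; omega)
  rw [Finset.mem_erase] at ht2
  obtain ⟨k, g, hg⟩ := (paths4 h2 h hT ht1 ht2.2 ht2.1.symm).1
  have hk : k = 3 := by rw [← hg.len, hA3]
  subst hk
  obtain ⟨x, hx⟩ : ∃ x, x = g 1 := ⟨_, rfl⟩
  obtain ⟨y, hy⟩ : ∃ y, y = g 2 := ⟨_, rfl⟩
  obtain ⟨z, hz⟩ : ∃ z, z = g 3 := ⟨_, rfl⟩
  have hxA : x ∈ A := hx ▸ hg.mem 1 le_rfl (by norm_num)
  have hyA : y ∈ A := hy ▸ hg.mem 2 (by norm_num) (by norm_num)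
  have hzA : z ∈ A := hz ▸ hg.mem 3 (by norm_num) (by norm_num)
  have hxy : x ≠ y := fun e => by
    have := hg.inj 1 2 le_rfl (by norm_num) (by norm_num) (by norm_num) (hx ▸ hy ▸ e)
    omega
  have hxz : x ≠ z := fun e => by
    have := hg.inj 1 3 le_rfl (by norm_num) (by norm_num) (by norm_num) (hx ▸ hz ▸ e)
    omega
  have hyz : y ≠ z := fun e => by
    have := hg.inj 2 3 (by norm_num) (by norm_num) (by norm_num) (by norm_num) (hy ▸ hz ▸ e)
    omega
  have axy : G.Adj x y := by have := hg.adj 1 (by norm_num); rwa [← hx, ← hy] at this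
  have ayz : G.Adj y z := by have := hg.adj 2 (by norm_num); rwa [← hy, ← hz] at this
  have hAm : ∀ u, u ∈ A ↔ u = x ∨ u = y ∨ u = z := by
    intro u
    constructor
    · intro hu
      obtain ⟨i, i1, i2, i3⟩ := hg.surj u hu
      have : i = 1 ∨ i = 2 ∨ i = 3 := by omega
      rcases this with rfl | rfl | rfl
      · left; rw [hx]; exact i3.symm
      · right; left; rw [hy]; exact i3.symm
      · right; right; rw [hz]; exact i3.symm
    · rintro (rfl | rfl | rfl)
      · exact hxA
      · exact hyA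
      · exact hzA
  clear hx hy hz hg
  -- every vertex of `T` has a neighbour in `A`
  have hTA : ∀ t ∈ T, G.Adj t x ∨ G.Adj t y ∨ G.Adj t z := by
    intro t ht
    obtain ⟨s, hs⟩ : (T.erase t).Nonempty := Finset.card_pos.1 (by
      rw [Finset.card_erase_of_mem ht]; omega)
    rw [Finset.mem_erase] at hs
    obtain ⟨k, g, hg⟩ := (paths4 h2 h hT ht hs.2 hs.1.symm).1
    have hk : k = 3 := by rw [← hg.len, hA3]
    subst hk
    have a1 : G.Adj t (g 1) := by have := hg.adj 0 (by norm_num); rwa [hg.start] at this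
    rcases (hAm _).1 (hg.mem 1 le_rfl (by norm_num)) with e | e | e
    · left; rwa [e] at a1
    · right; left; rwa [e] at a1
    · right; right; rwa [e] at a1
  -- neighbours in `T`
  obtain ⟨X, hX⟩ : ∃ X : V → Finset V, X = fun u => T.filter (fun t => G.Adj t u) := ⟨_, rfl⟩
  have hXm : ∀ u t, t ∈ X u ↔ t ∈ T ∧ G.Adj t u := by
    intro u t; rw [hX]; simp
  have hXT : ∀ u, X u ⊆ T := fun u t ht => ((hXm u t).1 ht).1
  -- degree bounds
  obtain ⟨b0, hb0⟩ := h.neB
  have degA : ∀ u ∈ A, ∀ W : Finset V, (∀ s ∈ A, G.Adj u s → s ∈ W) → 4 ≤ (X u).card + W.card := by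
    intro u hu W hW
    have hub : u ≠ b0 := fun e => h.disj u hu (e ▸ hb0)
    have h4 := four_nbrs (G := G) h5 h2 hub (h.noedge u hu b0 hb0)
    have hsub : Finset.univ.filter (fun s => G.Adj u s) ⊆ X u ∪ W := by
      intro s hs
      have hs' : G.Adj u s := by simpa using hs
      rw [Finset.mem_union]
      rcases h.cov s with h3 | h3 | h3
      · exact Or.inl ((hXm u s).2 ⟨h3, hs'.symm⟩)
      · exact Or.inr (hW s h3 hs')
      · exact absurd hs' (h.noedge u hu s h3)
    exact le_trans h4 (le_trans (Finset.card_le_card hsub) (Finset.card_union_le _ _))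
  have nA : ∀ u ∈ A, ∀ t ∈ T, t ≠ u := fun u hu t ht e => h.notA t ht (e ▸ hu)
  have c2 : ∀ u ∈ A, 2 ≤ (X u).card := by
    intro u hu
    have := degA u hu (({x, y, z} : Finset V).erase u) (by
      intro s hs hus
      rw [Finset.mem_erase]
      exact ⟨hus.ne.symm, by simpa using (hAm s).1 hs⟩)
    have hmem : u ∈ ({x, y, z} : Finset V) := by simpa using (hAm u).1 hu
    rw [Finset.card_erase_of_mem hmem] at this
    have h3 : ({x, y, z} : Finset V).card ≤ 3 := Finset.card_le_three
    omega
  -- the contradiction from a good triple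
  have good : ∀ p q r : V, (∀ u, u ∈ A ↔ u = p ∨ u = q ∨ u = r) → p ≠ q → p ≠ r → q ≠ r →
      G.Adj q r → ∀ b c d, b ∈ X p → b ∈ X q → c ∈ X p → d ∈ X r → c ≠ b → d ≠ b → c ≠ d →
      False := by
    intro p q r hm hpq hpr hqr hadj b c d hbp hbq hcp hdr hcb hdb hcd
    have hpA : p ∈ A := (hm p).2 (Or.inl rfl)
    have hqA : q ∈ A := (hm q).2 (Or.inr (Or.inl rfl))
    have hrA : r ∈ A := (hm r).2 (Or.inr (Or.inr rfl))
    have hbT := hXT _ hbp
    refine beta h1 h2 h hT (b := b) (c := c) (d := d) hbT (hXT _ hcp) (hXT _ hdr) hcb.symm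
      hdb.symm hcd ?_
    have e : A = ({p, q, r} : Set V) := by
      ext u; rw [hm u]; simp
    rw [e]
    exact mk5 hpq hpr hqr (nA p hpA b hbT) (nA q hqA b hbT) (nA r hrA b hbT)
      ((hXm p c).1 hcp).2 ((hXm p b).1 hbp).2.symm ((hXm q b).1 hbq).2 hadj
      ((hXm r d).1 hdr).2.symm
  by_cases hxz' : G.Adj x z
  · -- the triangle
    have pair : ∀ p q r : V, (∀ u, u ∈ A ↔ u = p ∨ u = q ∨ u = r) → p ≠ q → p ≠ r → q ≠ r →
        G.Adj q r → G.Adj p r → (∀ t ∈ T, G.Adj t p ∨ G.Adj t q ∨ G.Adj t r) →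
        (X p ∩ X q).Nonempty → False := by
      intro p q r hm hpq hpr hqr hqr' hpr' hcovT hne
      obtain ⟨b, hb⟩ := hne
      rw [Finset.mem_inter] at hb
      have hpA : p ∈ A := (hm p).2 (Or.inl rfl)
      have hqA : q ∈ A := (hm q).2 (Or.inr (Or.inl rfl))
      have hrA : r ∈ A := (hm r).2 (Or.inr (Or.inr rfl))
      have r1 := comb (P := X p) (Q := X q) (R := X r) hb.1 hb.2 (c2 r hrA) (c2 p hpA)
        (fun c hc d hd h3 h4 h6 => good p q r hm hpq hpr hqr hqr' b c d hb.1 hb.2 hc hd h3 h4 h6)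
      have r2 := comb (P := X q) (Q := X p) (R := X r) hb.2 hb.1 (c2 r hrA) (c2 q hqA)
        (fun c hc d hd h3 h4 h6 => good q p r (by intro u; rw [hm u]; tauto) hpq.symm hqr hpr
          hpr' b c d hb.2 hb.1 hc hd h3 h4 h6)
      have hsub : T ⊆ X r := by
        intro t ht
        rcases hcovT t ht with h3 | h3 | h3
        · rw [← r1.1]; exact (hXm p t).2 ⟨ht, h3⟩
        · rw [← r2.1]; exact (hXm q t).2 ⟨ht, h3⟩
        · exact (hXm r t).2 ⟨ht, h3⟩
      have := Finset.card_le_card hsub
      have := r1.2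
      omega
    by_cases n1 : (X x ∩ X y).Nonempty
    · exact pair x y z hAm hxy hxz hyz ayz hxz' hTA n1
    · by_cases n2 : (X x ∩ X z).Nonempty
      · exact pair x z y (by intro u; rw [hAm u]; tauto) hxz hxy hyz.symm ayz.symm axy
          (by intro t ht; rcases hTA t ht with h3 | h3 | h3 <;> simp [h3]) n2
      · by_cases n3 : (X y ∩ X z).Nonempty
        · exact pair y z x (by intro u; rw [hAm u]; tauto) hyz hxy.symm hxz.symm hxz'.symm
            axy.symm (by intro t ht; rcases hTA t ht with h3 | h3 | h3 <;> simp [h3]) n3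
        · rw [Finset.not_nonempty_iff_eq_empty] at n1 n2 n3
          have e1 := Finset.card_union_add_card_inter (X x) (X y)
          have e2 := Finset.card_union_add_card_inter (X x ∪ X y) (X z)
          rw [Finset.union_inter_distrib_right, n2, n3, Finset.union_empty, Finset.card_empty] at e2
          rw [n1, Finset.card_empty] at e1
          have e3 : (X x ∪ X y ∪ X z).card ≤ T.card := Finset.card_le_card
            (Finset.union_subset (Finset.union_subset (hXT x) (hXT y)) (hXT z))
          have := c2 x hxA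
          have := c2 y hyA
          have := c2 z hzA
          omega
  · -- `x` and `z` not adjacent
    have cx : 3 ≤ (X x).card := by
      have := degA x hxA {y} (by
        intro s hs hus
        rcases (hAm s).1 hs with rfl | rfl | rfl
        · exact absurd rfl hus.ne
        · simp
        · exact absurd hus hxz')
      simp at this
      omega
    have cz : 3 ≤ (X z).card := by
      have := degA z hzA {y} (by
        intro s hs hus
        rcases (hAm s).1 hs with rfl | rfl | rfl
        · exact absurd hus.symm hxz'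
        · simp
        · exact absurd rfl hus.ne)
      simp at this
      omega
    have cy := c2 y hyA
    have cxz : 2 ≤ (X x ∩ X z).card := by
      have e1 := Finset.card_union_add_card_inter (X x) (X z)
      have e2 : (X x ∪ X z).card ≤ T.card := Finset.card_le_card
        (Finset.union_subset (hXT x) (hXT z))
      omega
    obtain ⟨d, hd⟩ : (X y).Nonempty := Finset.card_pos.1 (by omega)
    obtain ⟨b, hb⟩ : ((X x ∩ X z).erase d).Nonempty := Finset.card_pos.1 (by
      have e1 := Finset.pred_card_le_card_erase (s := X x ∩ X z) (a := d)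
      omega)
    rw [Finset.mem_erase, Finset.mem_inter] at hb
    obtain ⟨c, hc⟩ : (((X x).erase b).erase d).Nonempty := Finset.card_pos.1 (by
      have e1 := Finset.pred_card_le_card_erase (s := (X x).erase b) (a := d)
      rw [Finset.card_erase_of_mem hb.2.1] at e1
      omega)
    rw [Finset.mem_erase, Finset.mem_erase] at hc
    exact good x z y (by intro u; rw [hAm u]; tauto) hxz hxy hyz.symm ayz.symm b c d hb.2.1
      hb.2.2 hc.2.2 hd hc.2.1 hb.1.symm hc.1

end Pool.Agent.H48Cut
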